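import Mathlib

/-! `k`-trees and the chromatic number of the subgraph induced by the vertices of degree `k + t`. -/

set_option autoImplicit false

namespace Q129.KT

/-- `KTreeOn k G S`: the subgraph of `G` induced by `S` is a `k`-tree, i.e. it is obtained from a
complete graph on `k + 1` vertices by repeatedly adding one new vertex, joined to exactly `k`
existing vertices that form a clique. -/
inductive KTreeOn {V : Type} (k : ℕ) (G : SimpleGraph V) : Set V → Prop
  | base (S : Set V) (hn : S.ncard = k + 1) (hc : G.IsClique S) : KTreeOn k G S
  | add (S : Set V) (v : V) (hS : KTreeOn k G S) (hv : v ∉ S)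
      (hn : (G.neighborSet v ∩ S).ncard = k) (hc : G.IsClique (G.neighborSet v ∩ S)) :
      KTreeOn k G (insert v S)

/-- `G` is a `k`-tree. -/
def IsKTree {V : Type} (k : ℕ) (G : SimpleGraph V) : Prop := KTreeOn k G Set.univ

/-- `g t`: the supremum of the chromatic numbers of the subgraphs induced by the vertices of degree
exactly `k + t`, over all `k ≥ 1` and all `k`-trees of order at least `k + t + 2`. -/
noncomputable def g (t : ℕ) : ℕ∞ :=
  ⨆ (k : ℕ) (_ : 1 ≤ k) (V : Type) (G : SimpleGraph V) (_ : IsKTree k G)
    (_ : k + t + 2 ≤ Nat.card V),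
      (G.induce {v | (G.neighborSet v).ncard = k + t}).chromaticNumber

end Q129.KT
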