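import Pool.Agent.Q129.KT.Defs

/-! The upper bound `t + 1` and its sharpness. -/

set_option autoImplicit false

namespace Q129.KT

variable {V : Type} {k : ℕ} {G : SimpleGraph V} {S : Set V}

theorem KTreeOn.finite (h : KTreeOn k G S) : S.Finite := by
  induction h with
  | base S hn hc => exact Set.finite_of_ncard_ne_zero (by omega)
  | add S v _ _ _ _ ih => exact ih.insert v

theorem KTreeOn.card_le (h : KTreeOn k G S) : k + 1 ≤ S.ncard := by
  induction h with
  | base S hn hc => omega
  | add S v hS hv _ _ ih =>
    rw [Set.ncard_insert_of_notMem hv hS.finite]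
    omega

theorem KTreeOn.clique_le (h : KTreeOn k G S) : ∀ C : Set V, C ⊆ S → G.IsClique C →
    C.ncard ≤ k + 1 := by
  induction h with
  | base S hn hc =>
    intro C hC _
    rw [← hn]
    exact Set.ncard_le_ncard hC (Set.finite_of_ncard_ne_zero (by omega))
  | add S v hS hv hn hc ih =>
    intro C hC hcl
    by_cases hvC : v ∈ C
    · have hsub : C \ {v} ⊆ G.neighborSet v ∩ S := by
        rintro x ⟨hx, hxv⟩
        have hxv' : x ≠ v := hxv
        refine ⟨hcl hvC hx hxv'.symm, ?_⟩
        rcases hC hx with h | h
        · exact absurd h hxv'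
        · exact h
      have h1 := Set.ncard_le_ncard hsub (hS.finite.subset Set.inter_subset_right)
      have h2 := Set.ncard_sdiff_singleton_add_one hvC ((hS.finite.insert v).subset hC)
      omega
    · refine ih C ?_ hcl
      intro x hx
      rcases hC hx with h | h
      · exact absurd (h ▸ hx) hvC
      · exact h

theorem KTreeOn.degree_ge (h : KTreeOn k G S) : ∀ c ∈ S, k ≤ (G.neighborSet c ∩ S).ncard := by
  induction h with
  | base S hn hc =>
    intro c hcS
    have hfin : S.Finite := Set.finite_of_ncard_ne_zero (by omega)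
    have hsub : S \ {c} ⊆ G.neighborSet c ∩ S := by
      rintro x ⟨hx, hxc⟩
      have hxc' : x ≠ c := hxc
      exact ⟨hc hcS hx hxc'.symm, hx⟩
    have h1 := Set.ncard_le_ncard hsub (hfin.subset Set.inter_subset_right)
    have h2 := Set.ncard_sdiff_singleton_add_one hcS hfin
    omega
  | add S v hS hv hn hc ih =>
    intro c hcS
    have hfin := hS.finite.insert v
    rcases hcS with rfl | hcS
    · rw [← hn]
      exact Set.ncard_le_ncard (Set.inter_subset_inter_right _ (Set.subset_insert _ _))
        (hfin.subset Set.inter_subset_right)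
    · refine (ih c hcS).trans ?_
      exact Set.ncard_le_ncard (Set.inter_subset_inter_right _ (Set.subset_insert _ _))
        (hfin.subset Set.inter_subset_right)

theorem deg_mono {c v : V} (hfin : S.Finite) :
    (G.neighborSet c ∩ S).ncard ≤ (G.neighborSet c ∩ insert v S).ncard :=
  Set.ncard_le_ncard (Set.inter_subset_inter_right _ (Set.subset_insert _ _))
    ((hfin.insert v).subset Set.inter_subset_right)

theorem deg_add {c v : V} (hfin : S.Finite) (hv : v ∉ S) (hcv : G.Adj c v) :
    (G.neighborSet c ∩ S).ncard + 1 ≤ (G.neighborSet c ∩ insert v S).ncard := by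
  have h1 : insert v (G.neighborSet c ∩ S) ⊆ G.neighborSet c ∩ insert v S := by
    intro x hx
    rcases hx with rfl | hx
    · exact ⟨hcv, Set.mem_insert _ _⟩
    · exact ⟨hx.1, Set.mem_insert_of_mem _ hx.2⟩
  have h2 := Set.ncard_le_ncard h1 ((hfin.insert v).subset Set.inter_subset_right)
  rwa [Set.ncard_insert_of_notMem (fun h => hv h.2) (hfin.subset Set.inter_subset_right)] at h2

/-- a vertex of full degree is adjacent to everything -/
theorem full_adj {c : V} (hfin : S.Finite) (hc : c ∈ S) {n : ℕ} (hn : S.ncard ≤ n + 1)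
    (hd : n ≤ (G.neighborSet c ∩ S).ncard) : ∀ x ∈ S, x ≠ c → G.Adj c x := by
  have hsub : G.neighborSet c ∩ S ⊆ S \ {c} := by
    intro x hx
    exact ⟨hx.2, fun h => G.irrefl (show G.Adj c c by
      have := hx.1
      rw [Set.mem_singleton_iff.1 h] at this
      exact this)⟩
  have h2 := Set.ncard_sdiff_singleton_add_one hc hfin
  have heq := Set.eq_of_subset_of_ncard_le hsub (by omega) (hfin.subset Set.sdiff_subset)
  intro x hx hxc
  have : x ∈ G.neighborSet c ∩ S := by
    rw [heq]
    exact ⟨hx, hxc⟩
  exact this.1

/-- Key lemma: in a `k`-tree with at least `k + s + 1` vertices, every clique with at least `s + 1`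
vertices contains a vertex of degree at least `k + s`. -/
theorem KTreeOn.key (h : KTreeOn k G S) : ∀ (s : ℕ) (C : Set V), C ⊆ S → G.IsClique C →
    s + 1 ≤ C.ncard → k + s + 1 ≤ S.ncard → ∃ c ∈ C, k + s ≤ (G.neighborSet c ∩ S).ncard := by
  induction h with
  | base S hn hc =>
    intro s C hC hcl hs hS
    have h0 : s = 0 := by omega
    subst h0
    obtain ⟨c, hcC⟩ : C.Nonempty := by
      rw [Set.nonempty_iff_ne_empty]
      rintro rfl
      simp at hs
    exact ⟨c, hcC, (KTreeOn.base S hn hc).degree_ge c (hC hcC)⟩
  | add S v hS hv hn hc ih =>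
    intro s C hC hcl hs hcard
    have hfin := hS.finite
    have hfinC : C.Finite := (hfin.insert v).subset hC
    have hle := hS.card_le
    rw [Set.ncard_insert_of_notMem hv hfin] at hcard
    by_cases hvC : v ∈ C
    · rcases Nat.eq_zero_or_pos s with rfl | hs0
      · exact ⟨v, hvC, (KTreeOn.add S v hS hv hn hc).degree_ge v (hC hvC)⟩
      · obtain ⟨r, rfl⟩ : ∃ r, s = r + 1 := ⟨s - 1, by omega⟩
        have h2 := Set.ncard_sdiff_singleton_add_one hvC hfinC
        obtain ⟨c, hcC, hdeg⟩ := ih r (C \ {v}) (by
          rintro x ⟨hx, hxv⟩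
          rcases hC hx with h | h
          · exact absurd h hxv
          · exact h) (hcl.subset Set.sdiff_subset) (by omega) (by omega)
        have hcv : c ≠ v := hcC.2
        refine ⟨c, hcC.1, ?_⟩
        have := deg_add hfin hv (hcl hcC.1 hvC hcv)
        omega
    · have hCS : C ⊆ S := by
        intro x hx
        rcases hC hx with h | h
        · exact absurd (h ▸ hx) hvC
        · exact h
      by_cases hbig : k + s + 1 ≤ S.ncard
      · obtain ⟨c, hcC, hdeg⟩ := ih s C hCS hcl hs hbig
        exact ⟨c, hcC, hdeg.trans (deg_mono hfin)⟩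
      · obtain ⟨r, rfl⟩ : ∃ r, s = r + 1 := ⟨s - 1, by omega⟩
        obtain ⟨c₁, hc₁, hd₁⟩ := ih r C hCS hcl (by omega) (by omega)
        have h2 := Set.ncard_sdiff_singleton_add_one hc₁ hfinC
        obtain ⟨c₂, hc₂, hd₂⟩ := ih r (C \ {c₁}) (Set.sdiff_subset.trans hCS)
          (hcl.subset Set.sdiff_subset) (by omega) (by omega)
        have hne : c₂ ≠ c₁ := hc₂.2
        by_cases ha₁ : G.Adj c₁ v
        · refine ⟨c₁, hc₁, ?_⟩
          have := deg_add hfin hv ha₁
          omega
        · by_cases ha₂ : G.Adj c₂ v
          · refine ⟨c₂, hc₂.1, ?_⟩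
            have := deg_add hfin hv ha₂
            omega
          · exfalso
            have f₁ := full_adj (G := G) hfin (hCS hc₁) (n := k + r) (by omega) hd₁
            have f₂ := full_adj (G := G) hfin (hCS hc₂.1) (n := k + r) (by omega) hd₂
            have n₁ : c₁ ∉ G.neighborSet v ∩ S := fun h => ha₁ (show G.Adj v c₁ from h.1).symm
            have n₂ : c₂ ∉ G.neighborSet v ∩ S := fun h => ha₂ (show G.Adj v c₂ from h.1).symm
            have hfinN : (G.neighborSet v ∩ S).Finite := hfin.subset Set.inter_subset_right
            have hcl2 : G.IsClique (insert c₂ (G.neighborSet v ∩ S)) := by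
              rw [SimpleGraph.isClique_insert]
              refine ⟨hc, fun x hx hxc => f₂ x hx.2 (Ne.symm hxc)⟩
            have hcl1 : G.IsClique (insert c₁ (insert c₂ (G.neighborSet v ∩ S))) := by
              rw [SimpleGraph.isClique_insert]
              refine ⟨hcl2, fun x hx hxc => ?_⟩
              rcases hx with rfl | hx
              · exact f₁ _ (hCS hc₂.1) (Ne.symm hxc)
              · exact f₁ _ hx.2 (Ne.symm hxc)
            have hsub : insert c₁ (insert c₂ (G.neighborSet v ∩ S)) ⊆ S := by
              intro x hx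
              rcases hx with rfl | rfl | hx
              · exact hCS hc₁
              · exact hCS hc₂.1
              · exact hx.2
            have h3 := hS.clique_le _ hsub hcl1
            rw [Set.ncard_insert_of_notMem (by
                rintro (h | h)
                · exact hne h.symm
                · exact n₁ h) (hfinN.insert _),
              Set.ncard_insert_of_notMem n₂ hfinN, hn] at h3
            omega

/-- greedy colouring along the construction of a `k`-tree -/
theorem KTreeOn.color (h : KTreeOn k G S) : ∀ (X : Set V) (m : ℕ), X ⊆ S →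
    (∀ C : Set V, C ⊆ X → G.IsClique C → C.ncard ≤ m) →
    ∃ f : V → ℕ, (∀ x ∈ X, f x < m) ∧ ∀ x ∈ X, ∀ y ∈ X, G.Adj x y → f x ≠ f y := by
  induction h with
  | base S hn hc =>
    intro X m hX hm
    have hfin : X.Finite := (Set.finite_of_ncard_ne_zero (by omega : S.ncard ≠ 0)).subset hX
    have hcard := hm X subset_rfl (hc.subset hX)
    classical
    have := hfin.to_subtype
    let e : X ≃ Fin (Nat.card X) := Finite.equivFin X
    have hX' : Nat.card X = X.ncard := rfl
    refine ⟨fun x => if hx : x ∈ X then (e ⟨x, hx⟩).val else 0, ?_, ?_⟩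
    · intro x hx
      simp only [hx, dif_pos]
      have := (e ⟨x, hx⟩).isLt
      omega
    · intro x hx y hy hxy
      simp only [hx, hy, dif_pos]
      intro heq
      have h1 : e ⟨x, hx⟩ = e ⟨y, hy⟩ := Fin.ext heq
      have h2 := e.injective h1
      simp only [Subtype.mk.injEq] at h2
      exact G.ne_of_adj hxy h2
  | add S v hS hv hn hc ih =>
    intro X m hX hm
    obtain ⟨f, hf1, hf2⟩ := ih (X \ {v}) m (by
      rintro x ⟨hx, hxv⟩
      rcases hX hx with h | h
      · exact absurd h hxv
      · exact h) (fun C hC hcl => hm C (hC.trans Set.sdiff_subset) hcl)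
    by_cases hvX : v ∈ X
    · have hfin : (G.neighborSet v ∩ S).Finite := hS.finite.subset Set.inter_subset_right
      set N : Set V := G.neighborSet v ∩ (X \ {v}) with hN
      have hNsub : N ⊆ G.neighborSet v ∩ S := by
        rintro x ⟨hx, hxX, hxv⟩
        refine ⟨hx, ?_⟩
        rcases hX hxX with h | h
        · exact absurd h hxv
        · exact h
      have hNfin : N.Finite := hfin.subset hNsub
      have hvN : v ∉ N := fun h => h.2.2 rfl
      have hNcl : G.IsClique (insert v N) := by
        rw [SimpleGraph.isClique_insert]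
        exact ⟨hc.subset hNsub, fun x hx _ => hx.1⟩
      have hNcard := hm (insert v N) (by
        intro x hx
        rcases hx with rfl | hx
        · exact hvX
        · exact hx.2.1) hNcl
      rw [Set.ncard_insert_of_notMem hvN hNfin] at hNcard
      have himg : (f '' N).ncard ≤ N.ncard := Set.ncard_image_le hNfin
      obtain ⟨c, hc1, hc2⟩ : ∃ c, c < m ∧ c ∉ f '' N := by
        by_contra hcon
        push Not at hcon
        have hsub : (Finset.range m : Set ℕ) ⊆ f '' N := by
          intro c hc'
          exact hcon c (by simpa using hc')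
        have h5 := Set.ncard_le_ncard hsub (hNfin.image f)
        rw [Set.ncard_coe_finset, Finset.card_range] at h5
        omega
      classical
      refine ⟨fun x => if x = v then c else f x, ?_, ?_⟩
      · intro x hx
        by_cases hxv : x = v
        · simp [hxv, hc1]
        · simp only [hxv, if_false]
          exact hf1 x ⟨hx, hxv⟩
      · intro x hx y hy hxy
        by_cases hxv : x = v
        · subst hxv
          have hyv : y ≠ x := (G.ne_of_adj hxy).symm
          simp only [if_true, hyv, if_false]
          intro heq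
          exact hc2 ⟨y, ⟨hxy, hy, hyv⟩, heq.symm⟩
        · by_cases hyv : y = v
          · subst hyv
            simp only [if_true, hxv, if_false]
            intro heq
            exact hc2 ⟨x, ⟨hxy.symm, hx, hxv⟩, heq⟩
          · simp only [hxv, hyv, if_false]
            exact hf2 x ⟨hx, hxv⟩ y ⟨hy, hyv⟩ hxy
    · refine ⟨f, ?_, ?_⟩
      · intro x hx
        exact hf1 x ⟨hx, fun h => hvX (Set.mem_singleton_iff.1 h ▸ hx)⟩
      · intro x hx y hy hxy
        exact hf2 x ⟨hx, fun h => hvX (Set.mem_singleton_iff.1 h ▸ hx)⟩ y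
          ⟨hy, fun h => hvX (Set.mem_singleton_iff.1 h ▸ hy)⟩ hxy

theorem upper {t : ℕ} (h : IsKTree k G) (hn : k + t + 2 ≤ Nat.card V) :
    (G.induce {v | (G.neighborSet v).ncard = k + t}).Colorable (t + 1) := by
  obtain ⟨f, hf1, hf2⟩ := KTreeOn.color h {v | (G.neighborSet v).ncard = k + t} (t + 1)
    (Set.subset_univ _) (by
      intro C hC hcl
      by_contra hcon
      obtain ⟨c, hc, hd⟩ := KTreeOn.key h (t + 1) C (Set.subset_univ _) hcl (by omega) (by
        rw [Set.ncard_univ]
        omega)
      rw [Set.inter_univ] at hd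
      have := hC hc
      simp only [Set.mem_ofPred_eq] at this
      omega)
  refine ⟨SimpleGraph.Coloring.mk (fun x => (⟨f x.1, hf1 x.1 x.2⟩ : Fin (t + 1))) ?_⟩
  intro x y hxy heq
  exact hf2 x.1 x.2 y.1 y.2 hxy (by simpa using heq)

/-! ### Sharpness -/

/-- A clique `K` on `t + 2` vertices and `t + 1` further vertices; the `j`-th one is joined to all
vertices of `K` except the `j`-th. -/
def ex (t : ℕ) : SimpleGraph (Fin (t + 2) ⊕ Fin (t + 1)) where
  Adj x y := match x, y with
    | Sum.inl i, Sum.inl j => i ≠ j
    | Sum.inl i, Sum.inr j => i.val ≠ j.val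
    | Sum.inr i, Sum.inl j => j.val ≠ i.val
    | Sum.inr _, Sum.inr _ => False
  symm := ⟨by
    intro x y h
    match x, y with
    | Sum.inl i, Sum.inl j => exact Ne.symm h
    | Sum.inl i, Sum.inr j => exact h
    | Sum.inr i, Sum.inl j => exact h
    | Sum.inr _, Sum.inr _ => exact h⟩
  loopless := ⟨by
    intro x h
    match x with
    | Sum.inl i => exact h rfl
    | Sum.inr i => exact h⟩

theorem ex_on (t m : ℕ) (hm : m ≤ t + 1) :
    KTreeOn (t + 1) (ex t) {x | match x with | Sum.inl _ => True | Sum.inr j => j.val < m} := by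
  induction m with
  | zero =>
    refine KTreeOn.base _ ?_ ?_
    · have : {x : Fin (t + 2) ⊕ Fin (t + 1) | match x with
          | Sum.inl _ => True | Sum.inr j => j.val < 0} = Set.range Sum.inl := by
        ext x
        cases x <;> simp
      rw [this, ← Set.image_univ, Set.ncard_image_of_injective _ Sum.inl_injective,
        Set.ncard_univ]
      simp
    · rintro (i | i) hx (j | j) hy hne
      · exact fun h => hne (by rw [h])
      · exact absurd hy (by simp)
      · exact absurd hx (by simp)
      · exact absurd hx (by simp)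
  | succ m ih =>
    have hins : {x : Fin (t + 2) ⊕ Fin (t + 1) | match x with
          | Sum.inl _ => True | Sum.inr j => j.val < m + 1} =
        insert (Sum.inr ⟨m, by omega⟩) {x | match x with
          | Sum.inl _ => True | Sum.inr j => j.val < m} := by
      ext x
      rcases x with i | j
      · simp
      · simp only [Set.mem_ofPred_eq, Set.mem_insert_iff, Sum.inr.injEq, Fin.ext_iff]
        omega
    rw [hins]
    have hnb : (ex t).neighborSet (Sum.inr ⟨m, by omega⟩) ∩
        {x | match x with | Sum.inl _ => True | Sum.inr j => j.val < m} =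
        Sum.inl '' {i : Fin (t + 2) | i.val ≠ m} := by
      ext x
      rcases x with i | j
      · simp only [Set.mem_inter_iff, SimpleGraph.mem_neighborSet, Set.mem_ofPred_eq, and_true,
          Set.mem_image, Sum.inl.injEq, exists_eq_right]
        rfl
      · simp only [Set.mem_inter_iff, SimpleGraph.mem_neighborSet, Set.mem_ofPred_eq,
          Set.mem_image, reduceCtorEq, and_false, exists_false, iff_false, not_and]
        intro h
        exact (h : False).elim
    refine KTreeOn.add _ _ (ih (by omega)) (by simp) ?_ ?_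
    · rw [hnb, Set.ncard_image_of_injective _ Sum.inl_injective]
      have h1 : {i : Fin (t + 2) | i.val ≠ m} =
          (Finset.univ.erase (⟨m, by omega⟩ : Fin (t + 2)) : Finset (Fin (t + 2))) := by
        ext i
        simp [Fin.ext_iff]
      rw [h1, Set.ncard_coe_finset, Finset.card_erase_of_mem (Finset.mem_univ _)]
      simp
    · rw [hnb]
      rintro _ ⟨i, _, rfl⟩ _ ⟨j, _, rfl⟩ hne
      exact fun h => hne (by rw [h])

theorem ex_ktree (t : ℕ) : IsKTree (t + 1) (ex t) := by
  have := ex_on t (t + 1) le_rfl
  have h : {x : Fin (t + 2) ⊕ Fin (t + 1) | match x with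
      | Sum.inl _ => True | Sum.inr j => j.val < t + 1} = Set.univ := by
    ext x
    rcases x with i | j
    · simp
    · have := j.isLt
      simp only [Set.mem_ofPred_eq, Set.mem_univ, iff_true]
      omega
  rwa [h] at this

theorem ex_deg (t : ℕ) (i : Fin (t + 2)) (hi : i.val < t + 1) :
    ((ex t).neighborSet (Sum.inl i)).ncard = t + 1 + t := by
  have h1 : (ex t).neighborSet (Sum.inl i) =
      ((Finset.univ.erase i).map ⟨Sum.inl, Sum.inl_injective⟩ ∪
        (Finset.univ.erase (⟨i.val, hi⟩ : Fin (t + 1))).map ⟨Sum.inr, Sum.inr_injective⟩ :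
          Finset (Fin (t + 2) ⊕ Fin (t + 1))) := by
    ext x
    rcases x with j | j
    · simp only [SimpleGraph.mem_neighborSet, Finset.coe_union, Finset.coe_map,
        Function.Embedding.coeFn_mk, Finset.coe_erase, Finset.coe_univ, Set.mem_union,
        Set.mem_image, Set.mem_sdiff, Set.mem_univ, Set.mem_singleton_iff, true_and,
        Sum.inl.injEq, exists_eq_right, reduceCtorEq, and_false, exists_false, or_false]
      exact ⟨fun h => Ne.symm h, fun h => Ne.symm h⟩
    · simp only [SimpleGraph.mem_neighborSet, Finset.coe_union, Finset.coe_map,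
        Function.Embedding.coeFn_mk, Finset.coe_erase, Finset.coe_univ, Set.mem_union,
        Set.mem_image, Set.mem_sdiff, Set.mem_univ, Set.mem_singleton_iff, true_and,
        Sum.inr.injEq, exists_eq_right, reduceCtorEq, and_false, exists_false, false_or]
      constructor
      · intro h heq
        exact (h : i.val ≠ j.val) (by rw [heq])
      · intro h heq
        exact h (Fin.ext (Eq.symm (heq : i.val = j.val)))
  rw [h1, Set.ncard_coe_finset, Finset.card_union_of_disjoint, Finset.card_map, Finset.card_map,
    Finset.card_erase_of_mem (Finset.mem_univ _), Finset.card_erase_of_mem (Finset.mem_univ _)]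
  · simp
  · rw [Finset.disjoint_left]
    intro x hx hy
    simp only [Finset.mem_map, Function.Embedding.coeFn_mk] at hx hy
    obtain ⟨a, -, rfl⟩ := hx
    obtain ⟨b, -, hb⟩ := hy
    cases hb

theorem ex_lower (t : ℕ) :
    ((t + 1 : ℕ) : ℕ∞) ≤ ((ex t).induce {v | ((ex t).neighborSet v).ncard =
      t + 1 + t}).chromaticNumber := by
  have hmem : ∀ i : Fin (t + 1), (Sum.inl (Fin.castSucc i) : Fin (t + 2) ⊕ Fin (t + 1)) ∈
      {v | ((ex t).neighborSet v).ncard = t + 1 + t} := by
    intro i
    exact ex_deg t _ (by
      have := i.isLt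
      simp only [Fin.val_castSucc]
      omega)
  let φ : (⊤ : SimpleGraph (Fin (t + 1))) →g
      ((ex t).induce {v | ((ex t).neighborSet v).ncard = t + 1 + t}) :=
    { toFun := fun i => ⟨Sum.inl (Fin.castSucc i), hmem i⟩
      map_rel' := by
        intro i j hij
        change Fin.castSucc i ≠ Fin.castSucc j
        intro h
        exact hij (Fin.castSucc_injective _ h) }
  have h1 := SimpleGraph.chromaticNumber_mono_of_hom φ
  rwa [SimpleGraph.chromaticNumber_top, Fintype.card_fin] at h1

theorem g_eq (t : ℕ) : g t = ((t + 1 : ℕ) : ℕ∞) := by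
  apply le_antisymm
  · unfold g
    refine iSup_le fun k => iSup_le fun _ => iSup_le fun V => iSup_le fun G => iSup_le fun h =>
      iSup_le fun hn => ?_
    exact (upper h hn).chromaticNumber_le
  · refine (ex_lower t).trans ?_
    unfold g
    refine le_iSup_of_le (t + 1) (le_iSup_of_le (by omega) (le_iSup_of_le
      (Fin (t + 2) ⊕ Fin (t + 1)) (le_iSup_of_le (ex t) (le_iSup_of_le (ex_ktree t)
        (le_iSup_of_le ?_ le_rfl)))))
    simp only [Nat.card_eq_fintype_card, Fintype.card_sum, Fintype.card_fin]
    omega

theorem g_eq_old (t : ℕ) : g t = (((t ^ 2 + t + 2) / 2 : ℕ) : ℕ∞) ↔ t ≤ 1 := by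
  rw [g_eq, Nat.cast_inj]
  constructor
  · intro h
    by_contra hcon
    have h2 : 2 ≤ t := by omega
    have h3 : 2 * (t + 2) ≤ t ^ 2 + t + 2 := by nlinarith
    have h4 : t + 2 ≤ (t ^ 2 + t + 2) / 2 := by omega
    omega
  · intro h
    interval_cases t <;> rfl

end Q129.KT
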