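import Pool.Agent.Q80.KT.Stm

/-! # KT: part TAU (symmetry) -/

open Finset MeasureTheory Filter Topology
open scoped Classical ENNReal NNReal

noncomputable section

namespace Pool.Agent.Q129.KT.TAU

open Pool.Agent.Q287.SR Pool.Agent.Q80.KT

/-- the isomorphism -/
def isoC {n : ℕ} (G : SimpleGraph (Fin n)) (σ : Equiv.Perm (Fin n)) : G.comap σ ≃g G :=
  { toEquiv := σ, map_rel_iff' := by intro a b; rfl }

theorem isoC_apply {n : ℕ} (G : SimpleGraph (Fin n)) (σ : Equiv.Perm (Fin n)) (a : Fin n) :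
    isoC G σ a = σ a := rfl

theorem reach {n : ℕ} (G : SimpleGraph (Fin n)) (σ : Equiv.Perm (Fin n)) (a b : Fin n) :
    (G.comap σ).Reachable a b ↔ G.Reachable (σ a) (σ b) := by
  have h := (isoC G σ).reachable_iff (u := a) (v := b)
  rw [isoC_apply, isoC_apply] at h
  exact h.symm

theorem dist_le {V W : Type} {G : SimpleGraph V} {H : SimpleGraph W} (e : G →g H) (a b : V) (h : G.Reachable a b) :
    H.dist (e a) (e b) ≤ G.dist a b := by
  obtain ⟨w, hw⟩ := h.exists_walk_length_eq_dist
  rw [← hw, ← SimpleGraph.Walk.length_map e w]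
  exact SimpleGraph.dist_le _

theorem dist {n : ℕ} (G : SimpleGraph (Fin n)) (σ : Equiv.Perm (Fin n)) (a b : Fin n) :
    (G.comap σ).dist a b = G.dist (σ a) (σ b) := by
  by_cases h : (G.comap σ).Reachable a b
  · have h' := (reach G σ a b).1 h
    apply le_antisymm
    · have h1 := dist_le (isoC G σ).symm.toHom (σ a) (σ b) h'
      have e1 : ∀ c, (isoC G σ).symm.toHom (σ c) = c := fun c => (isoC G σ).symm_apply_apply c
      rw [e1, e1] at h1
      exact h1
    · exact dist_le (isoC G σ).toHom a b h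
  · have h' : ¬ G.Reachable (σ a) (σ b) := fun hh => h ((reach G σ a b).2 hh)
    rw [SimpleGraph.dist_eq_zero_of_not_reachable h, SimpleGraph.dist_eq_zero_of_not_reachable h']

theorem ballIso {n k : ℕ} (F : SimpleGraph (Fin k)) (u : Fin k) (r : ℕ) (G : SimpleGraph (Fin n))
    (σ : Equiv.Perm (Fin n)) (v : Fin n) : BallIso F u (G.comap σ) v r ↔ BallIso F u G (σ v) r := by
  constructor
  · rintro ⟨φ, h1, h2, h3, h4⟩
    refine ⟨fun a => σ (φ a), σ.injective.comp h1, by show σ (φ u) = σ v; rw [h2], ?_, ?_⟩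
    · intro w
      have h := h3 (σ.symm w)
      rw [reach, dist, σ.apply_symm_apply] at h
      rw [← h]
      constructor
      · rintro ⟨a, ha⟩
        exact ⟨a, by rw [← ha, σ.symm_apply_apply]⟩
      · rintro ⟨a, ha⟩
        exact ⟨a, by show σ (φ a) = w; rw [ha, σ.apply_symm_apply]⟩
    · intro a b
      rw [h4 a b]
      rfl
  · rintro ⟨φ, h1, h2, h3, h4⟩
    refine ⟨fun a => σ.symm (φ a), σ.symm.injective.comp h1, by show σ.symm (φ u) = v; rw [h2, σ.symm_apply_apply], ?_, ?_⟩
    · intro w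
      have h := h3 (σ w)
      rw [reach, dist, ← h]
      constructor
      · rintro ⟨a, ha⟩
        exact ⟨a, by rw [← ha, σ.apply_symm_apply]⟩
      · rintro ⟨a, ha⟩
        exact ⟨a, by show σ.symm (φ a) = w; rw [ha, σ.symm_apply_apply]⟩
    · intro a b
      rw [h4 a b, SimpleGraph.comap_adj, σ.apply_symm_apply, σ.apply_symm_apply]

theorem sphC {n : ℕ} (r : ℕ) (G : SimpleGraph (Fin n)) (σ : Equiv.Perm (Fin n)) (v : Fin n) :
    (sph (G.comap σ) v r).card = (sph G (σ v) r).card := by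
  refine Finset.card_bij (fun a _ => σ a) ?_ (fun a _ b _ h => σ.injective h) ?_
  · intro a ha
    unfold sph at ha ⊢
    rw [Finset.mem_filter, reach, dist] at ha
    rw [Finset.mem_filter]
    exact ⟨Finset.mem_univ _, ha.2⟩
  · intro b hb
    unfold sph at hb ⊢
    rw [Finset.mem_filter] at hb
    refine ⟨σ.symm b, ?_, σ.apply_symm_apply b⟩
    rw [Finset.mem_filter, reach, dist, σ.apply_symm_apply]
    exact ⟨Finset.mem_univ _, hb.2⟩

theorem perm2 {n : ℕ} (a b x y : Fin n) (hab : a ≠ b) (hxy : x ≠ y) :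
    ∃ σ : Equiv.Perm (Fin n), σ a = x ∧ σ b = y := by
  set σ1 := Equiv.swap a x with hσ1
  have h1 : σ1 a = x := Equiv.swap_apply_left a x
  have h2 : σ1 y ≠ a := by
    intro h
    apply hxy
    rw [← h1, ← h, hσ1, Equiv.swap_apply_self]
  refine ⟨(Equiv.swap b (σ1 y)).trans σ1, ?_, ?_⟩
  · rw [Equiv.trans_apply, Equiv.swap_apply_of_ne_of_ne hab h2.symm, h1]
  · rw [Equiv.trans_apply, Equiv.swap_apply_left, hσ1, Equiv.swap_apply_self]

theorem t_TAU (h1 : S_SYM) : S_TAU := by
  intro n p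
  refine ⟨?_, ?_⟩
  · intro x y hxy
    have hn : 2 ≤ n := by
      rcases Nat.lt_or_ge n 2 with h | h
      · exfalso
        apply hxy
        apply Fin.ext
        have := x.isLt
        have := y.isLt
        omega
      · exact h
    unfold tau
    rw [dif_pos hn]
    obtain ⟨σ, hx, hy⟩ := perm2 (⟨0, by omega⟩ : Fin n) ⟨1, by omega⟩ x y (by
      intro h
      have := congrArg Fin.val h
      simp at this) hxy
    have h := h1 n p σ (fun G => ind (G.Reachable ⟨0, by omega⟩ ⟨1, by omega⟩))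
    unfold Pr
    rw [← h]
    congr 1
    funext G
    rw [reach, hx, hy]
  · intro k F u r v
    have hn : 1 ≤ n := by
      have := v.isLt
      omega
    unfold aN
    rw [dif_pos hn]
    have h := h1 n p (Equiv.swap ⟨0, by omega⟩ v)
      (fun G => ind (BallIso F u G ⟨0, by omega⟩ r) * ((sph G ⟨0, by omega⟩ r).card : ℝ))
    rw [← h]
    congr 1
    funext G
    rw [ballIso, sphC, Equiv.swap_apply_left]

end Pool.Agent.Q129.KT.TAU
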